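import Pool.Agent.Lib.MP_e7d961_lc.Fin

/-!
`MP_e7d961_lc`, Q1 for regular graphs.  Let `k ≥ 3` and let `H` be a `k`-regular graph (loops,
multiple edges and semi-edges allowed).

* If `H` is connected and has at least two vertices, then `H`-COVER is NP-complete already on
  simple inputs, unless `H` is the dipole (two vertices joined by `k` parallel edges), for which
  `H`-COVER is in P on general inputs.
* More generally, if `H` is nonempty (connected or not) and every vertex of `H` has two different
  neighbours (a vertex on a loop or a semi-edge is its own neighbour), then `H`-COVER is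
  NP-complete already on simple inputs.
-/

namespace Pool.Agent.Results.MP_e7d961_lc.RegularDichotomy

open SDich N68a2faeb

theorem result (H : Gr) (k : ℕ) (hk : 3 ≤ k) (hreg : H.Regular k) :
    (H.Connected → 2 ≤ Fintype.card H.V →
      (¬ H.Dipole → NPComplete (CoverSimple H)) ∧ (H.Dipole → CoverGeneral H ∈ P)) ∧
    (Nonempty H.V → (∀ x, ∃ y z, y ≠ z ∧ H.Nbr x y ∧ H.Nbr x z) →
      NPComplete (CoverSimple H)) :=
  ⟨fun hc h2 => ⟨fun hd => npc_conn allS H k hk hreg hc h2 hd,
    fun hd => p_of allS H k (by omega) hreg hd⟩,
    fun hne h => npc_of allS H k hk hreg hne h⟩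

end Pool.Agent.Results.MP_e7d961_lc.RegularDichotomy
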