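import Pool.Agent.Lib.MP_e7d961_lc.SC.Fin

/-!
`MP_e7d961_lc`, Q1 (the strong dichotomy conjecture for graph covers) is equivalent to `P = NP`;
so it fails unless `P = NP`.

There is a connected graph `H` (with loops and semi-edges) such that `H`-COVER is NP-complete on
general inputs and solvable in polynomial time on simple inputs.  Hence the statement

  for every graph `H`, `H`-COVER is in P on general inputs or NP-complete on simple inputs

implies `P = NP`; conversely it holds trivially if `P = NP`, since `H`-COVER is in NP.
-/

namespace Pool.Agent.Results.MP_e7d961_lc.StrongDichotomy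

open SDich N68a2faeb

theorem result :
    (∃ H : Gr, H.Connected ∧ NPComplete (CoverGeneral H) ∧ CoverSimple H ∈ P) ∧
    ((∀ H : Gr, CoverGeneral H ∈ P ∨ NPComplete (CoverSimple H)) ↔ P = NP) :=
  SC.main allS SC.allC

end Pool.Agent.Results.MP_e7d961_lc.StrongDichotomy
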